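import Pool.Agent.H77.CmDefs

namespace Pool.Agent.Results.MP_d1ccd0_al.Infinite

open H77.Cm Classical

/-- The ideal generated by `w, x y, u x², u y², u²` (coordinates `w, u, x, y`). -/
def InI (v : Fin 4 → ℕ) : Prop :=
  1 ≤ v 0 ∨ (1 ≤ v 2 ∧ 1 ≤ v 3) ∨ (1 ≤ v 1 ∧ 2 ≤ v 2) ∨ (1 ≤ v 1 ∧ 2 ≤ v 3) ∨ 2 ≤ v 1

abbrev F := Multiplicative (Fin 4 → ℕ)

theorem InI.add {v : Fin 4 → ℕ} (h : InI v) (u : Fin 4 → ℕ) : InI (v + u) := by
  unfold InI at *
  simp only [Pi.add_apply]
  omega

def S : Submonoid F where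
  carrier := {f | f = 1 ∨ InI (Multiplicative.toAdd f)}
  one_mem' := Or.inl rfl
  mul_mem' := by
    rintro a b (rfl | ha) hb
    · simpa using hb
    · exact Or.inr (ha.add _)

def vec (a : S) : Fin 4 → ℕ := Multiplicative.toAdd (a : F)

theorem vec_mul (a b : S) : vec (a * b) = vec a + vec b := rfl

theorem vec_inj {a b : S} (h : vec a = vec b) : a = b := Subtype.ext (Multiplicative.toAdd.injective h)

theorem unit_iff (a : S) : IsUnit a ↔ a = 1 := by
  constructor
  · intro h
    obtain ⟨b, hb⟩ := h.exists_right_inv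
    have h1 : vec a + vec b = 0 := by rw [← vec_mul, hb]; rfl
    apply vec_inj
    funext i
    have := congrFun h1 i
    simp only [Pi.add_apply, Pi.zero_apply] at this
    show vec a i = 0
    omega
  · rintro rfl; exact isUnit_one

theorem not_unit_iff (a : S) : ¬ IsUnit a ↔ InI (vec a) := by
  rw [unit_iff]
  constructor
  · intro h
    rcases a.2 with h1 | h1
    · exact absurd (Subtype.ext h1) h
    · exact h1
  · rintro h rfl
    have : vec (1 : S) = 0 := rfl
    rw [this] at h
    unfold InI at h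
    simp at h

instance : Subsingleton (Sˣ) := ⟨fun a b => by
  apply Units.ext
  rw [(unit_iff _).1 a.isUnit, (unit_iff _).1 b.isUnit]⟩

def mk' (v : Fin 4 → ℕ) (h : InI v) : S := ⟨Multiplicative.ofAdd v, Or.inr h⟩

theorem vec_mk' (v : Fin 4 → ℕ) (h : InI v) : vec (mk' v h) = v := rfl

theorem eq_of_assoc {a b : S} (h : Associated a b) : a = b := by
  obtain ⟨u, rfl⟩ := h
  rw [Subsingleton.elim u 1]
  simp

def e : Associates S ≃* S where
  toFun := Quotient.lift id fun _ _ h => eq_of_assoc h
  invFun := Associates.mk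
  left_inv := by rintro ⟨a⟩; rfl
  right_inv := fun _ => rfl
  map_mul' := by rintro ⟨a⟩ ⟨b⟩; rfl

noncomputable def V (p : Associates S) : Fin 4 → ℕ := vec (e p)

theorem e_mk (a : S) : e (Associates.mk a) = a := rfl

theorem V_prod (z : Multiset (Associates S)) (i : Fin 4) :
    V z.prod i = (z.map fun p => V p i).sum := by
  induction z using Multiset.induction_on with
  | empty =>
    simp only [Multiset.prod_zero, Multiset.map_zero, Multiset.sum_zero, V, map_one]
    rfl
  | cons p z ih =>
    rw [Multiset.prod_cons, Multiset.map_cons, Multiset.sum_cons, ← ih]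
    simp only [V, map_mul, vec_mul, Pi.add_apply]

def w0 : Fin 4 → ℕ := ![1, 0, 0, 0]

theorem atom_cond {a : S} (h : Irreducible a) (h0 : 1 ≤ vec a 0) :
    ¬ InI (vec a - w0) := by
  intro hI
  have hw : InI w0 := Or.inl (by simp [w0])
  have : a = mk' w0 hw * mk' _ hI := by
    apply vec_inj
    rw [vec_mul, vec_mk', vec_mk']
    funext i
    have : w0 i ≤ vec a i := by
      fin_cases i
      · exact h0
      all_goals exact Nat.zero_le _
    simp only [Pi.add_apply, Pi.sub_apply]
    omega
  rcases h.isUnit_or_isUnit this with h1 | h1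
  · exact (not_unit_iff (mk' w0 hw)).2 hw h1
  · exact (not_unit_iff (mk' _ hI)).2 hI h1

theorem atom_cond' {p : Associates S} (h : Irreducible p) :
    V p 0 ≤ 1 ∧ (V p 0 = 1 → (V p 2 = 0 ∨ V p 3 = 0) ∧ V p 1 ≤ 1 ∧
      (V p 1 = 1 → V p 2 ≤ 1 ∧ V p 3 ≤ 1)) := by
  have h' : Irreducible (e p) := (MulEquiv.irreducible_iff e).2 h
  by_cases h0 : 1 ≤ V p 0
  · have := atom_cond h' h0
    unfold InI at this
    simp only [Pi.sub_apply, w0] at this
    simp at this
    unfold V
    omega
  · omega

theorem sum_le {α : Type*} (z : Multiset α) (f : α → ℕ) (h : ∀ p ∈ z, f p ≤ 1) :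
    (z.map f).sum ≤ Multiset.card z ∧
      ((z.map f).sum = Multiset.card z → ∀ p ∈ z, f p = 1) := by
  induction z using Multiset.induction_on with
  | empty => simp
  | cons q z ih =>
    have ih' := ih fun p hp => h p (Multiset.mem_cons_of_mem hp)
    have hq := h q (Multiset.mem_cons_self _ _)
    simp only [Multiset.map_cons, Multiset.sum_cons, Multiset.card_cons, Multiset.mem_cons]
    refine ⟨by omega, fun hs p hp => ?_⟩
    rcases hp with rfl | hp
    · omega
    · exact ih'.2 (by omega) p hp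

theorem sum_zero {α : Type*} (z : Multiset α) (f : α → ℕ) (h : (z.map f).sum = 0) :
    ∀ p ∈ z, f p = 0 := by
  intro p hp
  have := Multiset.single_le_sum (s := z.map f) (fun _ _ => Nat.zero_le _) (f p)
    (Multiset.mem_map_of_mem f hp)
  omega

theorem sum_ones {α : Type*} (z : Multiset α) (f : α → ℕ) (h : ∀ p ∈ z, f p = 1) :
    (z.map f).sum = Multiset.card z := by
  rw [Multiset.map_congr rfl h]
  simp

def big (m : ℕ) : S := mk' ![m + 1, m, m, m] (Or.inl (by simp))

/-- The two shapes of factorizations of length `m + 1` of `big m`. -/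
def Shape (m : ℕ) (i j : Fin 4) (z : Multiset (Associates S)) : Prop :=
  ∀ p ∈ z, (V p 1 = 0 ∧ V p i = m ∧ V p j = 0) ∨ (V p 1 = 1 ∧ V p i = 0 ∧ V p j = 1)

theorem shape (m : ℕ) (z : Multiset (Associates S)) (hz : IsFact (big m) z)
    (hc : Multiset.card z = m + 1) : Shape m 2 3 z ∨ Shape m 3 2 z := by
  have hs : ∀ i, (z.map fun p => V p i).sum = ![m + 1, m, m, m] i := by
    intro i
    rw [← V_prod, hz.2]
    rfl
  have h0 : ∀ p ∈ z, V p 0 = 1 :=
    (sum_le z _ fun p hp => (atom_cond' (hz.1 p hp)).1).2 (by rw [hs 0, hc]; rfl)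
  have hcond := fun p hp => (atom_cond' (hz.1 p hp)).2 (h0 p hp)
  have hex : ∃ c ∈ z, V c 1 = 0 := by
    by_contra hne
    push Not at hne
    have := sum_ones z (fun p => V p 1) fun p hp => by
      have := (hcond p hp).2.1
      have := hne p hp
      omega
    rw [hs 1, hc] at this
    simp at this
  obtain ⟨c, hcz, hc1⟩ := hex
  obtain ⟨t, rfl⟩ := Multiset.exists_cons_of_mem hcz
  have ht : Multiset.card t = m := by simpa using hc
  have hct := fun p hp => hcond p (Multiset.mem_cons_of_mem (a := p) (b := c) (s := t) hp)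
  have hs1 := hs 1
  have hs2 := hs 2
  have hs3 := hs 3
  simp only [Multiset.map_cons, Multiset.sum_cons] at hs1 hs2 hs3
  have e1 : (![m + 1, m, m, m] : Fin 4 → ℕ) 1 = m := rfl
  have e2 : (![m + 1, m, m, m] : Fin 4 → ℕ) 2 = m := rfl
  have e3 : (![m + 1, m, m, m] : Fin 4 → ℕ) 3 = m := rfl
  rw [e1] at hs1
  rw [e2] at hs2
  rw [e3] at hs3
  have h1 : ∀ p ∈ t, V p 1 = 1 :=
    (sum_le t _ fun p hp => (hct p hp).2.1).2 (by omega)
  rcases (hcond c hcz).1 with hc2 | hc3
  · right
    have h2 : ∀ p ∈ t, V p 2 = 1 :=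
      (sum_le t _ fun p hp => ((hct p hp).2.2 (h1 p hp)).1).2 (by omega)
    have h3 : ∀ p ∈ t, V p 3 = 0 := fun p hp => by
      have := (hct p hp).1
      have := h2 p hp
      omega
    have h3s : (t.map fun p => V p 3).sum = 0 := by
      rw [Multiset.map_congr rfl h3]; simp
    intro p hp
    rcases Multiset.mem_cons.1 hp with rfl | hp
    · left; omega
    · right; exact ⟨h1 p hp, h3 p hp, h2 p hp⟩
  · left
    have h3 : ∀ p ∈ t, V p 3 = 1 :=
      (sum_le t _ fun p hp => ((hct p hp).2.2 (h1 p hp)).2).2 (by omega)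
    have h2 : ∀ p ∈ t, V p 2 = 0 := fun p hp => by
      have := (hct p hp).1
      have := h3 p hp
      omega
    have h2s : (t.map fun p => V p 2).sum = 0 := by
      rw [Multiset.map_congr rfl h2]; simp
    intro p hp
    rcases Multiset.mem_cons.1 hp with rfl | hp
    · left; omega
    · right; exact ⟨h1 p hp, h2 p hp, h3 p hp⟩

theorem disj {m : ℕ} (hm : 1 ≤ m) {z z' : Multiset (Associates S)} (h : Shape m 2 3 z)
    (h' : Shape m 3 2 z') : ∀ p ∈ z, p ∉ z' := by
  intro p hp hp'
  have := h p hp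
  have := h' p hp'
  omega

theorem irr (v : Fin 4 → ℕ) (h0 : v 0 = 1) (hv : ¬ InI (v - w0)) :
    Irreducible (Associates.mk (mk' v (Or.inl h0.ge))) := by
  refine (MulEquiv.irreducible_iff e).1 ?_
  rw [e_mk]
  refine ⟨(not_unit_iff (mk' v (Or.inl h0.ge))).2 (Or.inl h0.ge), fun a b hab => ?_⟩
  by_contra hne
  push Not at hne
  have ha := (not_unit_iff _).1 hne.1
  have hb := (not_unit_iff _).1 hne.2
  have hv' : v = vec a + vec b := by rw [← vec_mul, ← hab]; rfl
  apply hv
  have k0 := congrFun hv' 0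
  have k1 := congrFun hv' 1
  have k2 := congrFun hv' 2
  have k3 := congrFun hv' 3
  unfold InI at *
  simp only [Pi.add_apply, Pi.sub_apply, w0] at *
  simp
  omega

noncomputable def fac (m : ℕ) (c g : Fin 4 → ℕ) (hc : c 0 = 1) (hg : g 0 = 1) :
    Multiset (Associates S) :=
  Associates.mk (mk' c (Or.inl hc.ge)) ::ₘ Multiset.replicate m (Associates.mk (mk' g (Or.inl hg.ge)))

theorem fac_isFact (m : ℕ) (c g : Fin 4 → ℕ) (hc : c 0 = 1) (hg : g 0 = 1)
    (hc' : ¬ InI (c - w0)) (hg' : ¬ InI (g - w0))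
    (hs : ∀ i, c i + m * g i = ![m + 1, m, m, m] i) : IsFact (big m) (fac m c g hc hg) := by
  constructor
  · intro p hp
    rcases Multiset.mem_cons.1 hp with rfl | hp
    · exact irr c hc hc'
    · rw [Multiset.eq_of_mem_replicate hp]; exact irr g hg hg'
  · apply e.injective
    apply vec_inj
    funext i
    have := V_prod (fac m c g hc hg) i
    unfold V at this
    rw [this, e_mk]
    simp only [fac, Multiset.map_cons, Multiset.map_replicate, Multiset.sum_cons,
      Multiset.sum_replicate, e_mk, vec_mk', smul_eq_mul]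
    exact hs i

theorem card_fac (m : ℕ) (c g : Fin 4 → ℕ) (hc : c 0 = 1) (hg : g 0 = 1) :
    Multiset.card (fac m c g hc hg) = m + 1 := by simp [fac]

theorem le_cEqAt (m : ℕ) (hm : 1 ≤ m) : ((m + 1 : ℕ) : ℕ∞) ≤ cEqAt (big m) := by
  refine le_sInf fun N hN => ?_
  have hz := fac_isFact m ![1, 0, m, 0] ![1, 1, 0, 1] rfl rfl
    (by simp [InI, w0]) (by simp [InI, w0]) (by intro i; fin_cases i <;> simp; omega)
  have hz' := fac_isFact m ![1, 0, 0, m] ![1, 1, 1, 0] rfl rfl
    (by simp [InI, w0]) (by simp [InI, w0]) (by intro i; fin_cases i <;> simp; omega)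
  obtain ⟨r, c, h0, hr, hf, hd, hmono⟩ := hN _ _ hz hz' (by rw [card_fac, card_fac])
  have c0 : Multiset.card (c 0) = m + 1 := by rw [h0, card_fac]
  have cr : Multiset.card (c r) = m + 1 := by rw [hr, card_fac]
  have hcard : ∀ i ≤ r, Multiset.card (c i) = m + 1 := by
    intro i hi
    rcases hmono with h | h
    · have hmon : ∀ j ≤ r, ∀ k ≤ j, Multiset.card (c k) ≤ Multiset.card (c j) := by
        intro j hj k hk
        induction j, hk using Nat.le_induction with
        | base => exact le_rfl
        | succ j hk ih => exact (ih (by omega)).trans (h j (by omega))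
      have := hmon r le_rfl i hi
      have := hmon i hi 0 (Nat.zero_le _)
      omega
    · have hmon : ∀ j ≤ r, ∀ k ≤ j, Multiset.card (c j) ≤ Multiset.card (c k) := by
        intro j hj k hk
        induction j, hk using Nat.le_induction with
        | base => exact le_rfl
        | succ j hk ih => exact (h j (by omega)).trans (ih (by omega))
      have := hmon r le_rfl i hi
      have := hmon i hi 0 (Nat.zero_le _)
      omega
  by_contra hlt
  have hall : ∀ i ≤ r, Shape m 2 3 (c i) := by
    intro i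
    induction i with
    | zero =>
      intro _ p hp
      rw [h0] at hp
      rcases Multiset.mem_cons.1 hp with rfl | hp
      · left; exact ⟨rfl, rfl, rfl⟩
      · rw [Multiset.eq_of_mem_replicate hp]; right; exact ⟨rfl, rfl, rfl⟩
    | succ i ih =>
      intro hi
      rcases shape m _ (hf _ hi) (hcard _ hi) with h | h
      · exact h
      · exfalso
        apply hlt
        refine le_trans ?_ (hd i (by omega))
        have hdj := disj hm (ih (by omega)) h
        have : c i - c (i + 1) = c i := by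
          ext p
          rw [Multiset.count_sub]
          by_cases hp : p ∈ c i
          · rw [Multiset.count_eq_zero_of_notMem (hdj p hp)]; rfl
          · rw [Multiset.count_eq_zero_of_notMem hp]; simp
        have h2 : m + 1 ≤ dist (c i) (c (i + 1)) := by
          unfold H77.Cm.dist
          refine le_trans ?_ (le_max_left _ _)
          rw [← hcard i (by omega)]
          apply le_of_eq
          congr 1
          convert this.symm
        exact_mod_cast h2
  have hB : Shape m 3 2 (c r) := by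
    intro p hp
    rw [hr] at hp
    rcases Multiset.mem_cons.1 hp with rfl | hp
    · left; exact ⟨rfl, rfl, rfl⟩
    · rw [Multiset.eq_of_mem_replicate hp]; right; exact ⟨rfl, rfl, rfl⟩
  obtain ⟨p, hp⟩ := Multiset.card_pos_iff_exists_mem.1 (show 0 < Multiset.card (c r) by omega)
  exact disj hm (hall r le_rfl) hB p hp hp

theorem result : ∃ H : Submonoid (Multiplicative (Fin 4 → ℕ)),
    IsConductor H ∧ cEq H = ⊤ ∧ cMon H = ⊤ := by
  have h : cEq S = ⊤ := by
    refine ENat.eq_top_iff_forall_ge.2 fun m => ?_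
    refine le_trans ?_ ((le_cEqAt (m + 1) (by omega)).trans (le_iSup (fun a : S => cEqAt a) _))
    exact_mod_cast (by omega : m ≤ m + 1 + 1)
  refine ⟨S, fun a ha f => Or.inr (((not_unit_iff a).1 ha).add _), h, ?_⟩
  unfold cMon
  rw [h]
  simp

end Pool.Agent.Results.MP_d1ccd0_al.Infinite
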